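import Pool.Agent.N110.QAssem
import Pool.Agent.N110.QPlateau
import Pool.Agent.N110.DV.Im
import Pool.Agent.N110.DV.Main

/-!
The growth of the joint degrees of semigroups of dominant rational self-maps which preserve the class
of a nef divisor, for weak pull backs (after `N110.QAssem`, which has `K_X + Δ`).
-/

set_option autoImplicit false
set_option linter.overlappingInstances false
set_option linter.unusedSectionVars false

open FF Module MvPolynomial Pool.Agent.W602.GT Pool.Agent.W603.LV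
open Pool.Agent.Y172 Pool.Agent.Y191 Pool.Agent.R887 Pool.Agent.W619.PQ
open Pool.Agent.N110 Pool.Agent.N110.DV

namespace Pool.Agent.U827.SM

section

variable {K : Type} [Field K] [Algebra ℂ K] {N n : ℕ} {y : Fin (N + 1) → K}

/-- **The growth of the joint degrees.** -/
theorem growth_selfW (hy : NormalModel y) (hn : Algebra.trdeg ℂ K = n) (hn0 : 0 < n)
    {i : Fin (N + 1)} (hi : y i ≠ 0) {x : Fin n → K} {E : Fin n → Derivation ℂ K K}
    (hE : ∀ i j, E i (x j) = if i = j then 1 else 0)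
    (hfr : IsFrame E) {c : Place ℂ K → ℤ} (hcfin : {P | IsPrimeDivisor y P ∧ c P ≠ 0}.Finite)
    (hc' : IsDisc y E c) {Δ : Place ℂ K → ℚ} (hΔ : {P | IsPrimeDivisor y P ∧ Δ P ≠ 0}.Finite)
    (hnef : LogNef y n Δ)
    {S : Set (K →ₐ[ℂ] K)} (h1 : ∀ φ ∈ S, WEPulls y c Δ φ)
    {C₁ : ℕ} (hC₁ : ∀ φ ∈ S, I (eCls hy hn hi φ (hcls hy hi) ::ₘ
      Multiset.replicate (n - 1) (hcls hy hi)) ≤ C₁) {ν : ℕ} (hν : ν ≤ n)
    (hnum : ¬ NumDimLt y n Δ ν) (hnum' : ν + 1 ≤ n → NumDimLt y n Δ (ν + 1)) {L L' : ℝ}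
    (hL : 0 < L) (hlt : L < L')
    (hyp : ∀ j, j + ν ≤ n → ∃ a ≤ ν, ∃ A : ℝ, ∃ l0 : ℕ, ∀ w : List (K →ₐ[ℂ] K),
      l0 ≤ w.length → (∀ φ ∈ w, φ ∈ S) →
      (I (Multiset.replicate (j + a) (eCls hy hn hi w.prod (hcls hy hi)) +
        Multiset.replicate (n - (j + a)) (hcls hy hi)) : ℝ) ≤ A * L ^ w.length) :
    ∃ A : ℝ, ∀ w : List (K →ₐ[ℂ] K), (∀ φ ∈ w, φ ∈ S) → ∀ p, p ≤ n →
      (I (Multiset.replicate p (eCls hy hn hi w.prod (hcls hy hi)) +
      Multiset.replicate (n - p) (hcls hy hi)) : ℝ) ≤ A * L' ^ w.length := by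
  classical
  have hess := hy.ess
  have cx := ctx hy hn hi
  have hP1 : ∀ w : List (K →ₐ[ℂ] K), (∀ φ ∈ w, φ ∈ S) → WEPulls y c Δ w.prod := WEPulls.word h1
  obtain ⟨Hy, hHy, hHP⟩ := exists_hyp hy hi
  -- the base point free systems
  have hseq : ∀ q : ℕ, ∃ (M : ℕ) (σ : K), 1 ≤ q → (1 ≤ M ∧ σ ≠ 0 ∧
      (∀ l, σ * (y l / y i) ∈ Lsp y c (M * q) ((M * q) • Δ + M • Hy)) ∧
      ∀ Q, Divisorial n Q → ∃ g, GenAt y c (M * q) ((M * q) • Δ + M • Hy) Q g) := by
    intro q
    by_cases hq : 1 ≤ q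
    · obtain ⟨M, hM, σ, hσ, h2, h3⟩ := nef_seq hy hn hn0 hnef hi hfr hc' hHy hHP q hq
      exact ⟨M, σ, fun _ => ⟨hM, hσ, h2, h3⟩⟩
    · exact ⟨0, 0, fun h => absurd h hq⟩
  choose Mq σ hMσ using hseq
  have hBex : ∀ q : ℕ, ∃ B : Cls ℂ (affS y i), 1 ≤ q →
      NefSys y i n c Δ Hy q (Mq q) (σ q) B := by
    intro q
    by_cases hq : 1 ≤ q
    · obtain ⟨hM, hσ, h2, h3⟩ := hMσ q hq
      refine ⟨secCls hy hi hcfin hΔ hHy (Mq q * q) (Mq q) hσ h2, fun _ => ⟨hM, hσ, fun v => ?_,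
        h3⟩⟩
      rfl
    · exact ⟨hcls hy hi, fun h => absurd h hq⟩
  choose B hB using hBex
  obtain ⟨ε, hε, hbase⟩ := base_pos hy hn hi (x := x) hfr hc' hHy hHP hν hnum
  have heps := eps_all hy hn hi hHP hB hν hε (fun q hq => hbase q (Mq q) (σ q) (B q) hq (hB q hq))
  -- the spaces
  obtain ⟨m, hm⟩ : ∃ m : ℕ → ℕ, ∀ q, m q = Mq (q + 1) * (q + 1) := ⟨_, fun _ => rfl⟩
  obtain ⟨b, hb⟩ : ∃ b : ℕ → ℕ, ∀ q, b q = Mq (q + 1) := ⟨_, fun _ => rfl⟩
  obtain ⟨g0, hg0d⟩ : ∃ g0 : ℕ → K, ∀ q, g0 q = σ (q + 1) := ⟨_, fun _ => rfl⟩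
  have hb1 : ∀ q, 1 ≤ b q := fun q => by
    rw [hb]
    exact (hMσ (q + 1) (by omega)).1
  have hmb : ∀ q, m q = b q * (q + 1) := fun q => by rw [hm, hb]
  have hg0 : ∀ q, g0 q ≠ 0 := fun q => by
    rw [hg0d]
    exact (hMσ (q + 1) (by omega)).2.1
  have hm1 : ∀ q, q + 1 ≤ m q := fun q => by
    rw [hmb]
    exact Nat.le_mul_of_pos_left _ (hb1 q)
  have hm1' : ∀ q, 1 ≤ m q := fun q => by have := hm1 q; omega
  have hmem0 : ∀ q l, g0 q * (y l / y i) ∈ Lsp y c (m q) (m q • Δ + b q • Hy) := by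
    intro q l
    have := (hMσ (q + 1) (by omega)).2.2.1 l
    rw [← hb, ← hg0d, ← hmb] at this
    exact this
  have hmem : ∀ A : {A : Place ℂ K → ℚ // Effective y A}, ∀ q l,
      g0 q * (y l / y i) ∈ Lsp y c (m q) (m q • Δ + b q • (Hy + A.1)) := by
    intro A q l
    refine Lsp_mono le_rfl hHy.1 (fun P hP => ?_) (hmem0 q l)
    have := A.2.1 P hP
    change Hy P ≤ Hy P + A.1 P
    linarith
  obtain ⟨M, hMV⟩ : ∃ M : {A : Place ℂ K → ℚ // Effective y A} → ℕ → Cls ℂ (affS y i), ∀ A q,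
      M A q = secCls hy hi hcfin hΔ (Effective.add' hHy A.2) (m q) (b q) (hg0 q)
        (hmem A q) := ⟨_, fun _ _ => rfl⟩
  have hMmem : ∀ A q v, v ∈ (M A q).V ↔
      g0 q * v ∈ Lsp y c (m q) (m q • Δ + b q • (Hy + A.1)) := by
    intro A q v
    rw [hMV]
    rfl
  have hBM : ∀ A q v, v ∈ (B (q + 1)).V → v ∈ (M A q).V := by
    intro A q v hv
    rw [hMmem]
    have h2 := ((hB (q + 1) (by omega)).mem v).1 hv
    rw [← hb, ← hg0d, ← hmb] at h2
    refine Lsp_mono le_rfl hHy.1 (fun P hP => ?_) h2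
    have := A.2.1 P hP
    change Hy P ≤ Hy P + A.1 P
    linarith
  obtain ⟨D, hDV⟩ : ∃ D : Cls ℂ (affS y i) → ℕ → Cls ℂ (affS y i), ∀ a v, D a v =
      mulCls (fin_affS i) (one_affS hi) a (hpow hy hi (v - 1)) := ⟨_, fun _ _ => rfl⟩
  obtain ⟨β, f, hf, hdom⟩ := dom_sections hy hi hcfin hΔ
  obtain ⟨t, ht⟩ : ∃ t : Multiset (Cls ℂ (affS y i)) → ℝ, t = fun s => (I s : ℝ) := ⟨_, rfl⟩
  -- comparison after all maps
  have hLeW : ∀ (V V' : Cls ℂ (affS y i)) (g : K), g ≠ 0 → (∀ v ∈ V.V, g * v ∈ V'.V) →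
      LeW n t (EWrd hy hn hi S) 1 V V' := by
    rintro V V' g hg0 hV l F ⟨w, -, -, rfl⟩ s hs
    rw [ht, one_mul]
    refine Nat.cast_le.2 (I_mono cx (g := w.prod g) (by rwa [Ne, map_eq_zero]) ?_ hs)
    rintro _ ⟨v, hv, rfl⟩
    exact ⟨g * v, hV v hv, map_mul w.prod g v⟩
  have hdir : ∀ A A' : {A : Place ℂ K → ℚ // Effective y A}, (∀ P, IsPrimeDivisor y P →
      A.1 P ≤ A'.1 P) → ∀ q, LeW n t (EWrd hy hn hi S) 1 (M A q) (M A' q) := by
    intro A A' hAA q
    refine hLeW _ _ 1 one_ne_zero fun v hv => ?_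
    rw [one_mul]
    rw [hMmem] at hv ⊢
    refine Lsp_mono le_rfl (Effective.add' hHy A.2).1 (fun P hP => ?_) hv
    have := hAA P hP
    change Hy P + A.1 P ≤ Hy P + A'.1 P
    linarith
  -- pull back
  have hMpull : ∀ ψ : K →ₐ[ℂ] K, WEPulls y c Δ ψ → ∀ A : {A : Place ℂ K → ℚ // Effective y A},
      ∃ A' : {A : Place ℂ K → ℚ // Effective y A}, ∀ q, ∃ J : K, J ≠ 0 ∧
        ∀ v ∈ (M A q).V, J * ψ v ∈ (M A' q).V := by
    intro ψ hψ A
    obtain ⟨B, hB, hB0⟩ := hψ (Hy + A.1) (Effective.add' hHy A.2)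
    refine ⟨⟨B, hB⟩, fun q => ?_⟩
    obtain ⟨J, hJ, hB1⟩ := hB0 (m q) (hm1' q)
    refine ⟨J * ψ (g0 q) / g0 q, div_ne_zero (mul_ne_zero hJ
      (by rw [Ne, map_eq_zero]; exact hg0 q)) (hg0 q), fun v hv => ?_⟩
    rw [hMmem] at hv ⊢
    have e1 := hB1 (b q) (hb1 q) _ hv
    have e2 : g0 q * (J * ψ (g0 q) / g0 q * ψ v) = J * ψ (g0 q * v) := by
      rw [map_mul]
      have := hg0 q
      field_simp
    rw [e2]
    refine Lsp_mono le_rfl hB.1 (fun P hP => ?_) e1
    have := hHy.1 P hP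
    change B P ≤ Hy P + B P
    linarith
  have data : Sys n t (EWrd hy hn hi S) (hcls hy hi) (fun q => (m q : ℝ)) M D ν (β + 1)
      (1 / (2 * (Mq 1 : ℝ) ^ ν)) C₁ := by
    refine ⟨?_, ?_, hn0, hν, by positivity, ?_, ?_, ?_, ?_, ?_, ?_, ?_, ?_, ?_, ?_, ?_, ?_, ?_,
      ?_, ?_, ?_⟩
    · -- pos
      intro s hs
      rw [ht]
      beta_reduce
      exact_mod_cast I_pos cx hs
    · -- ex
      rw [ht]
      exact exch cx
    · -- hε
      have : (0 : ℝ) < Mq 1 := by exact_mod_cast (hMσ 1 le_rfl).1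
      positivity
    · -- one
      refine ⟨[], rfl, by simp, ?_⟩
      funext A
      rw [List.prod_nil, eCls_one]
      rfl
    · -- zero_id
      rintro F ⟨w, hw, -, rfl⟩
      rw [List.length_eq_zero_iff] at hw
      subst hw
      funext A
      rw [List.prod_nil, eCls_one]
      rfl
    · -- split
      rintro l k F ⟨w, hw, hwS, rfl⟩
      refine ⟨eCls hy hn hi (w.take l).prod, ⟨w.take l, by rw [List.length_take]; omega,
        fun φ hφ => hwS φ (List.mem_of_mem_take hφ), rfl⟩,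
        eCls hy hn hi (w.drop l).prod, ⟨w.drop l, by rw [List.length_drop]; omega,
        fun φ hφ => hwS φ (List.mem_of_mem_drop hφ), rfl⟩, ?_⟩
      funext A
      change _ = eCls hy hn hi _ (eCls hy hn hi _ A)
      rw [eCls_eCls, ← List.prod_append, List.take_append_drop]
    · -- deg
      rintro l F ⟨w, -, -, rfl⟩
      refine ⟨mapDegree w.prod, by exact_mod_cast mapDegree_pos hess hn w.prod, fun s hs => ?_⟩
      rw [ht]
      beta_reduce
      exact_mod_cast I_emap hy hn hi w.prod hs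
    · -- H_deg
      rintro F ⟨w, hw, hwS, rfl⟩
      obtain ⟨φ, rfl⟩ := List.length_eq_one_iff.1 hw
      rw [List.prod_singleton, ht]
      beta_reduce
      exact_mod_cast hC₁ φ (hwS φ (by simp))
    · -- m_pos
      intro q
      exact_mod_cast hm1' q
    · -- m_tend
      refine Filter.tendsto_atTop_mono (fun q => ?_) tendsto_natCast_atTop_atTop
      have := hm1 q
      exact_mod_cast (by omega : q ≤ m q)
    · -- dir
      intro A A'
      refine ⟨⟨A.1 + A'.1, Effective.add' A.2 A'.2⟩, fun q => ⟨hdir _ _ (fun P hP => ?_) q,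
        hdir _ _ (fun P hP => ?_) q⟩⟩
      · have := A'.2.1 P hP
        change A.1 P ≤ A.1 P + A'.1 P
        linarith
      · have := A.2.1 P hP
        change A'.1 P ≤ A.1 P + A'.1 P
        linarith
    · -- M_f
      rintro k G ⟨w, -, hwS, rfl⟩ A
      obtain ⟨A', hA'⟩ := hMpull w.prod (hP1 w hwS) A
      refine ⟨A', fun q => ?_⟩
      obtain ⟨J, hJ, hJA⟩ := hA' q
      refine hLeW _ _ J hJ ?_
      rintro _ ⟨v, hv, rfl⟩
      exact hJA v hv
    · -- M_le
      intro A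
      obtain ⟨βA, gA, hgA, hdomA⟩ := hdom (Hy + A.1) (Effective.add' hHy A.2)
      filter_upwards [Filter.eventually_ge_atTop βA] with q hq
      rintro l F ⟨w, -, -, rfl⟩ s hs
      rw [ht]
      have e1 := I_dom_emap hy hn hi w.prod (V := M A q)
        (B := m q * β + b q * βA) (f := f ^ m q * gA ^ b q * g0 q)
        (mul_ne_zero (mul_ne_zero (pow_ne_zero _ hf) (pow_ne_zero _ hgA)) (hg0 q))
        (fun v hv => by
          rw [mul_assoc]
          exact hdomA (m q) (b q) _ ((hMmem A q v).1 hv)) hs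
      have e2 : ((m q * β + b q * βA : ℕ) : ℝ) ≤ ((β : ℝ) + 1) * m q := by
        have e3 : m q * β + b q * βA ≤ (β + 1) * m q := by
          have e4 : b q * βA ≤ m q := by
            rw [hmb]
            exact Nat.mul_le_mul_left _ (by omega)
          nlinarith
        exact_mod_cast e3
      calc ((I (eCls hy hn hi w.prod (M A q) ::ₘ s) : ℕ) : ℝ) ≤
            ((m q * β + b q * βA : ℕ) : ℝ) *
            (I (eCls hy hn hi w.prod (hcls hy hi) ::ₘ s) : ℝ) := by exact_mod_cast e1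
        _ ≤ ((β : ℝ) + 1) * m q * (I (eCls hy hn hi w.prod (hcls hy hi) ::ₘ s) : ℝ) :=
          mul_le_mul_of_nonneg_right e2 (Nat.cast_nonneg _)
    · -- D_add
      rintro a v hv l F ⟨w, -, -, rfl⟩ s hs
      rw [ht, hDV]
      have e1 := I_add cx (D := eCls hy hn hi w.prod (mulCls (fin_affS i) (one_affS hi) a
        (hpow hy hi (v - 1)))) (V := eCls hy hn hi w.prod a)
        (V' := eCls hy hn hi w.prod (hpow hy hi (v - 1))) (by rw [eCls_mul]; exact le_rfl) hs
      have e2 := I_dom_emap hy hn hi w.prod (V := hpow hy hi (v - 1))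
        (B := v - 1 + 1) (f := 1) one_ne_zero (hpow_bnd hy hi (v - 1)) hs
      have e3 : v - 1 + 1 = v := by omega
      rw [e3] at e2
      beta_reduce
      exact_mod_cast e1.trans (Nat.add_le_add_left e2 _)
    · -- D_M
      intro a v hv s hs
      rw [ht, one_mul, hDV]
      refine Nat.cast_le.2 (I_mono cx (g := 1) one_ne_zero (fun w hw => ?_) hs)
      rw [one_mul]
      have := Submodule.mul_mem_mul hw (hpow hy hi (v - 1)).one
      rwa [mul_one] at this
    · -- D_H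
      intro a v hv s hs
      rw [ht, hDV]
      have e1 := I_pow cx (V := hcls hy hi)
        (D := mulCls (fin_affS i) (one_affS hi) a (hpow hy hi (v - 1))) (q := v) hv
        (fun w hw => by
          have e2 := hpow_pow hy hi (v - 1) w hw
          have e3 : v - 1 + 1 = v := by omega
          rw [e3] at e2
          have := Submodule.mul_mem_mul a.one e2
          rwa [one_mul] at this) hs
      beta_reduce
      exact_mod_cast e1
    · -- eps
      rintro l F ⟨w, -, hwS, rfl⟩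
      obtain ⟨Z, hZ⟩ : ∃ Z : {A : Place ℂ K → ℚ // Effective y A}, Z = ⟨0, fun _ _ => le_rfl, by
        refine Set.finite_empty.subset ?_
        rintro P ⟨-, h⟩
        exact h rfl⟩ := ⟨_, rfl⟩
      refine ⟨Z, ?_⟩
      have e1 := (Filter.tendsto_add_atTop_nat 1).eventually (heps w.prod)
      filter_upwards [e1] with q hq
      rw [← hm] at hq
      have e6 : Le n t 1 (eCls hy hn hi w.prod (B (q + 1))) (eCls hy hn hi w.prod (M Z q)) := by
        intro s hs
        rw [ht, one_mul]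
        refine Nat.cast_le.2 (I_mono cx (g := 1) one_ne_zero ?_ hs)
        rintro _ ⟨v, hv, rfl⟩
        rw [one_mul]
        exact ⟨v, hBM Z q v hv, rfl⟩
      have e7 := e6.rep zero_le_one ν (Multiset.replicate (n - ν) (hcls hy hi))
        (by rw [Multiset.card_replicate]; omega)
      rw [one_pow, one_mul, ht] at e7
      rw [ht]
      exact hq.trans e7
    · -- zero
      intro hν1 A δ hδ
      obtain ⟨tt, htt, m0, hnd⟩ := hnum' hν1 (Hy + A.1) (Effective.add' hHy A.2) δ hδ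
      obtain ⟨q0, hq0⟩ := exists_nat_gt (1 / tt)
      filter_upwards [Filter.eventually_ge_atTop (max m0 q0)] with q hq
      have hq1 : m0 ≤ q := (le_max_left _ _).trans hq
      have hq2 : q0 ≤ q := (le_max_right _ _).trans hq
      rw [ht]
      have hcard : (Multiset.replicate (ν + 1) (M A q) + Multiset.replicate (n - (ν + 1))
          (hcls hy hi)).card = n := by
        rw [Multiset.card_add, Multiset.card_replicate, Multiset.card_replicate]
        omega
      obtain ⟨W, hW, e⟩ := exists_max cx hcard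
      obtain ⟨W1, W2, s1, s2, rfl⟩ := sel_add_right hW
      rw [sel_rep] at s1 s2
      obtain ⟨w1, hw1⟩ := exists_fin W1 s1.1
      obtain ⟨w2, hw2⟩ := exists_fin W2 s2.1
      have hw1m : ∀ j, w1 j ∈ (M A q).V := by
        intro j
        have h3 : w1 j ∈ {x | x ∈ W1} := by
          rw [hw1]
          exact ⟨j, rfl⟩
        exact s1.2 _ h3
      have hw2m : ∀ j, w2 j ∈ Submodule.span ℂ (affS y i) := by
        intro j
        have h3 : w2 j ∈ {x | x ∈ W2} := by
          rw [hw2]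
          exact ⟨j, rfl⟩
        exact s2.2 _ h3
      have hbt : ((b q : ℕ) : ℝ) ≤ tt * m q := by
        have e1 : (1 : ℝ) ≤ tt * (q + 1) := by
          have e2 : (1 : ℝ) / tt < q + 1 := by
            have : (q0 : ℝ) ≤ q := by exact_mod_cast hq2
            linarith
          rw [div_lt_iff₀ htt] at e2
          linarith
        have e2 : (m q : ℝ) = b q * (q + 1) := by
          rw [hmb]
          push_cast
          ring
        rw [e2]
        have e3 := mul_le_mul_of_nonneg_left e1 (show (0 : ℝ) ≤ b q from Nat.cast_nonneg _)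
        linarith
      have hbd := hnd (m q) (b q) (by have := hm1 q; omega) hbt w2
        (fun a => pencil_span hi (hw2m a))
        (Fin.cons (frm x (m q) (g0 q)) fun j => frm x (m q) (g0 q * w1 j)) E (fun j => by
          refine Fin.cases ?_ (fun j => ?_) j
          · rw [Fin.cons_zero, isSection_iff hc' (frm_pluri x _ _), frm_self hE]
            have := hmem A q i
            rwa [div_self hi, mul_one] at this
          · rw [Fin.cons_succ, isSection_iff hc' (frm_pluri x _ _), frm_self hE]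
            exact (hMmem A q _).1 (hw1m j)) (by
          rw [Fin.cons_zero, frm_self hE]
          exact hg0 q)
      have e1 : (fun j : Fin (ν + 1) => (Fin.cons (frm x (m q) (g0 q))
          (fun j => frm x (m q) (g0 q * w1 j)) : Fin (ν + 1 + 1) → _ → K) j.succ E /
          (Fin.cons (frm x (m q) (g0 q)) (fun j => frm x (m q) (g0 q * w1 j)) :
            Fin (ν + 1 + 1) → _ → K) 0 E) = w1 := by
        funext j
        rw [Fin.cons_succ, Fin.cons_zero, frm_self hE, frm_self hE]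
        exact mul_div_cancel_left₀ _ (hg0 q)
      rw [e1, deg_dm hw2 hw1, add_comm W2 W1, e] at hbd
      exact hbd
  have hcomp : ∀ l k, ∀ F ∈ EWrd hy hn hi S l, ∀ G ∈ EWrd hy hn hi S k,
      F ∘ G ∈ EWrd hy hn hi S (l + k) := by
    rintro l k F ⟨w, hw, hwS, rfl⟩ G ⟨w', hw', hwS', rfl⟩
    refine ⟨w ++ w', by rw [List.length_append, hw, hw'], fun φ hφ => ?_, ?_⟩
    · rcases List.mem_append.1 hφ with h | h
      · exact hwS φ h
      · exact hwS' φ h
    · funext A
      rw [List.prod_append, ← eCls_eCls]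
      rfl
  have hfin := data.growth' hcomp ⟨⟨Hy, hHy⟩⟩ hL hlt (by
    intro j hj
    obtain ⟨a, ha, A, l0, hA⟩ := hyp j hj
    refine ⟨a, ha, A, l0, ?_⟩
    rintro l hl F ⟨w, rfl, hwS, rfl⟩
    rw [ht]
    exact hA w hl hwS)
  obtain ⟨A, hA⟩ := hfin
  refine ⟨A, fun w hwS p hp => ?_⟩
  have := hA w.length (eCls hy hn hi w.prod) ⟨w, rfl, hwS, rfl⟩ p hp
  rw [ht] at this
  exact this

end

end Pool.Agent.U827.SM
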