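import Pool.Agent.U827.SM.Growth

/-!
**The plateau theorem** for semigroups of dominant rational self-maps which preserve the class of a
nef divisor (after `N110.QPlateau`, which has `K_X + Δ`).
-/

set_option autoImplicit false
set_option linter.overlappingInstances false
set_option linter.unusedSectionVars false

open FF Module MvPolynomial Pool.Agent.W602.GT Pool.Agent.W603.LV
open Pool.Agent.Y172 Pool.Agent.Y191 Pool.Agent.R887
open Pool.Agent.N110 Pool.Agent.N110.DV
open scoped ENNReal Topology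

namespace Pool.Agent.U827.SM

section

variable {K : Type} [Field K] [Algebra ℂ K] {N n : ℕ} {y : Fin (N + 1) → K}

/-- **The plateau theorem**, for the largest `ν`. -/
theorem splateauD_aux (hy : NormalModel y) (hn : Algebra.trdeg ℂ K = n) {D : Place ℂ K → ℚ}
    (hD : {P | IsPrimeDivisor y P ∧ D P ≠ 0}.Finite)
    (hnef : NefD y n D)
    {S : Set (K →ₐ[ℂ] K)} (h1 : ∀ φ ∈ S, SelfClassLe φ y D)
    {C₁ : ℕ} (hC₁ : ∀ φ ∈ S, selfDegree φ y n 1 ≤ C₁) {ν : ℕ} (hν : ν ≤ n)
    (hnum : ¬ NuLt y n D ν) (hnum' : ν + 1 ≤ n → NuLt y n D (ν + 1)) :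
    ∃ j, j + ν ≤ n ∧ ∀ a ≤ ν, ∀ p ≤ n, selfJointDegree S y n p ≤ selfJointDegree S y n (j + a) := by
  classical
  rcases Nat.eq_zero_or_pos n with rfl | hn0
  · refine ⟨0, by omega, fun a ha p hp => ?_⟩
    obtain rfl : a = 0 := by omega
    obtain rfl : p = 0 := by omega
    exact le_rfl
  obtain ⟨i, hi⟩ := hy.ne
  obtain ⟨x, E, hx, hE⟩ := exists_crd hn (k := ℂ) (K := K)
  have hfr : IsFrame E := fun F => ⟨fun j => F (x j),
    (Pool.Agent.W73.PG.PULL.expand x hx E hE F).symm⟩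
  obtain ⟨c, hcfin, hc⟩ := exists_ordc hy hn hx hE
  have hc' : IsDisc y E c := hc
  by_contra hcon
  push Not at hcon
  obtain ⟨d, hd⟩ : ∃ d : ℕ → ℕ → ℝ≥0∞, ∀ p l, d p l = ⨆ (w : List (K →ₐ[ℂ] K))
      (_ : w.length = l) (_ : ∀ φ ∈ w, φ ∈ S), selfDegree w.prod y n p := ⟨_, fun _ _ => rfl⟩
  have hdyn : ∀ p, selfJointDegree S y n p =
      Filter.limsup (fun l : ℕ => d p l ^ (1 / (l : ℝ))) Filter.atTop := by
    intro p
    unfold selfJointDegree
    congr 1
    funext l
    rw [hd]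
  obtain ⟨p0, hp0, hmax⟩ := Finset.exists_max_image (Finset.range (n + 1))
    (fun p => selfJointDegree S y n p) ⟨0, by simp⟩
  rw [Finset.mem_range] at hp0
  have hcon' : ∀ j, j + ν ≤ n → ∃ a ≤ ν, selfJointDegree S y n (j + a) < selfJointDegree S y n p0 := by
    intro j hj
    obtain ⟨a, ha, p, hp, hlt⟩ := hcon j hj
    exact ⟨a, ha, hlt.trans_le (hmax p (Finset.mem_range.2 (by omega)))⟩
  choose a ha halt using hcon'
  obtain ⟨B, hB⟩ : ∃ B : ℝ≥0∞, B = (Finset.range (n + 1)).sup fun j =>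
      if hj : j + ν ≤ n then selfJointDegree S y n (j + a j hj) else 0 := ⟨_, rfl⟩
  have hBlt : B < selfJointDegree S y n p0 := by
    rw [hB, Finset.sup_lt_iff]
    · intro j _
      split_ifs with hj
      · exact halt j hj
      · exact zero_le.trans_lt (halt 0 (by omega))
    · exact zero_le.trans_lt (halt 0 (by omega))
  obtain ⟨L, hL1, hL2⟩ := ENNReal.lt_iff_exists_nnreal_btwn.1 hBlt
  obtain ⟨L', hL3, hL4⟩ := ENNReal.lt_iff_exists_nnreal_btwn.1 hL2
  have hL0 : (0 : ℝ) < L := by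
    have : (0 : ℝ≥0∞) < L := zero_le.trans_lt hL1
    exact_mod_cast this
  have hLL' : (L : ℝ) < L' := by exact_mod_cast hL3
  obtain ⟨A, hA⟩ := growth_selfW hy hn hn0 hi hE hfr hcfin hc' (sh_fin hcfin hD)
    (logNef_of hE hc' hnef) (fun φ hφ => wepulls_of hy hn (h1 φ hφ)) (C₁ := C₁) (fun φ hφ => by
    have h3 := hC₁ φ hφ
    rw [selfDegree_eq hy hn hi φ (by omega : 1 ≤ n), Nat.cast_le, Multiset.replicate_one,
      Multiset.singleton_add] at h3
    exact h3) hν (fun h => hnum ((nuLt_iff hE hfr hc').1 h))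
    (fun h => (nuLt_iff hE hfr hc').2 (hnum' h)) hL0 hLL' (by
    intro j hj
    have h3 : selfJointDegree S y n (j + a j hj) < ENNReal.ofReal L := by
      rw [ENNReal.ofReal_coe_nnreal]
      refine lt_of_le_of_lt ?_ hL1
      rw [hB]
      have h4 := Finset.le_sup (s := Finset.range (n + 1))
        (f := fun j => if hj : j + ν ≤ n then selfJointDegree S y n (j + a j hj) else 0)
        (Finset.mem_range.2 (by omega : j < n + 1))
      simp only [dif_pos hj] at h4
      exact h4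
    have ha' := ha j hj
    rw [hdyn] at h3
    obtain ⟨l0, hl0⟩ := ev_of_limsup hL0 h3
    refine ⟨a j hj, ha', 1, l0, fun w hw hwS => ?_⟩
    have h4 := hl0 w.length hw
    have h5 : selfDegree w.prod y n (j + a j hj) ≤ d (j + a j hj) w.length := by
      rw [hd]
      exact le_iSup_of_le w (le_iSup_of_le rfl (le_iSup_of_le hwS le_rfl))
    have h6 := h5.trans h4
    rw [selfDegree_eq hy hn hi w.prod (by omega)] at h6
    have h7 := (ENNReal.le_ofReal_iff_toReal_le (ENNReal.natCast_ne_top _) (by positivity)).1 h6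
    rw [one_mul]
    simpa using h7)
  have h3 : selfJointDegree S y n p0 ≤ ENNReal.ofReal L' := by
    rw [hdyn p0]
    refine limsup_of_bd (A := A) (hL0.trans hLL') fun l => ?_
    rw [hd]
    refine iSup_le fun w => iSup_le fun hw => iSup_le fun hwS => ?_
    rw [selfDegree_eq hy hn hi w.prod (by omega : p0 ≤ n), ← ENNReal.ofReal_natCast]
    refine ENNReal.ofReal_le_ofReal ?_
    rw [← hw]
    exact hA w hwS p0 (by omega)
  rw [ENNReal.ofReal_coe_nnreal] at h3
  exact absurd hL4 (not_lt.2 h3)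

/-- **The plateau theorem** for nef divisors whose class is preserved by dominant rational
self-maps. -/
theorem splateauD (hy : NormalModel y) (hn : Algebra.trdeg ℂ K = n) {D : Place ℂ K → ℚ}
    (hD : {P | IsPrimeDivisor y P ∧ D P ≠ 0}.Finite) (hnef : NefD y n D)
    {S : Set (K →ₐ[ℂ] K)} (h1 : ∀ φ ∈ S, SelfClassLe φ y D)
    {C₁ : ℕ} (hC₁ : ∀ φ ∈ S, selfDegree φ y n 1 ≤ C₁) {ν : ℕ} (hν : ν ≤ n)
    (hnum : ¬ NuLt y n D ν) :
    ∃ j, j + ν ≤ n ∧ ∀ a ≤ ν, ∀ p ≤ n, selfJointDegree S y n p ≤ selfJointDegree S y n (j + a) := by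
  obtain ⟨ν', e1, e2, e3, e4⟩ := exists_nuD hν hnum
  obtain ⟨j, hj, h⟩ := splateauD_aux hy hn hD hnef h1 hC₁ e2 e3 e4
  exact ⟨j, by omega, fun a ha p hp => h a (by omega) p hp⟩

end

end Pool.Agent.U827.SM
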