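import Pool.Agent.U827.SM.SemiGeo

/-!
Semigroups of commuting dominant rational self-maps which preserve the class of a nef divisor: the
rank theorem (after `N110.SE.Main`, which has `K_X + Δ`).
-/

set_option autoImplicit false
set_option linter.overlappingInstances false
set_option linter.unusedSectionVars false

open FF Module MvPolynomial Pool.Agent.W602.GT Pool.Agent.W603.LV
open Pool.Agent.Y172 Pool.Agent.Y191 Pool.Agent.R887 Pool.Agent.N110.RK
open Pool.Agent.N110 Pool.Agent.N110.SE Pool.Agent.N110.DV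
open scoped ENNReal

namespace Pool.Agent.U827.SM

section

variable {K : Type} [Field K] [Algebra ℂ K] {N n : ℕ} {y : Fin (N + 1) → K}

/-- nef divisors are pseudo-effective -/
theorem not_nuLt_zero (hy : NormalModel y) (hn : Algebra.trdeg ℂ K = n) (hn0 : 0 < n)
    {L : Place ℂ K → ℚ} (hnef : NefD y n L) : ¬ NuLt y n L 0 := by
  obtain ⟨x, E, hx, hE⟩ := exists_crd hn (k := ℂ) (K := K)
  have hfr : IsFrame E := fun F => ⟨fun j => F (x j),
    (Pool.Agent.W73.PG.PULL.expand x hx E hE F).symm⟩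
  obtain ⟨c, hcfin, hc⟩ := exists_ordc hy hn hx hE
  have hc' : IsDisc y E c := hc
  exact fun h => not_numDimLt_zero hy hn hn0 (logNef_of hE hc' hnef)
    ((nuLt_iff hE hfr hc').2 h)

/-- the directions of subexponential growth -/
theorem semi_spaceD (hy : NormalModel y) (hn : Algebra.trdeg ℂ K = n) (hn0 : 0 < n)
    {L : Place ℂ K → ℚ} (hL : {P | IsPrimeDivisor y P ∧ L P ≠ 0}.Finite) (hnef : NefD y n L)
    {r : ℕ} {φ : (Fin r → ℕ) → (K →ₐ[ℂ] K)} (hφ : ∀ u v, φ (u + v) = φ u * φ v)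
    (hP : ∀ v, SelfClassLe (φ v) y L) {ν : ℕ} (hν : ν ≤ n) (hnum : ¬ NuLt y n L ν) :
    ∃ W : Submodule ℝ (Fin r → ℝ), r + ν ≤ finrank ℝ W + n ∧ ∀ w ∈ W, CorrSubexp φ y n w := by
  obtain ⟨i, hi⟩ := hy.ne
  obtain ⟨x, E, hx, hE⟩ := exists_crd hn (k := ℂ) (K := K)
  have hfr : IsFrame E := fun F => ⟨fun j => F (x j),
    (Pool.Agent.W73.PG.PULL.expand x hx E hE F).symm⟩
  obtain ⟨c, hcfin, hc⟩ := exists_ordc hy hn hx hE
  have hc' : IsDisc y E c := hc
  obtain ⟨m, M, c₁, ε, h⟩ := exists_esysW hy hn hn0 hi hE hfr hcfin hc' (sh_fin hcfin hL)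
    (logNef_of hE hc' hnef) hφ (fun v => wepulls_of hy hn (hP v)) hν
    (fun h => hnum ((nuLt_iff hE hfr hc').1 h))
  obtain ⟨W, hW1, hW2⟩ := semi_rank stmSJ h
  refine ⟨W, hW1, fun w hw δ hδ => ?_⟩
  obtain ⟨B, hB⟩ := hW2 w hw δ hδ
  refine ⟨B, fun l v hv => (stmSD hy hn hn0 hi v).trans (ENNReal.ofReal_le_ofReal ?_)⟩
  refine le_trans (le_of_eq ?_) (hB l v hv)
  have hs : (Multiset.replicate n (hcls hy hi)).card = n := Multiset.card_replicate _ _
  have h1 := h.inv (ng v) (Multiset.replicate n (hcls hy hi)) hs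
  have h2 := h.pos (Multiset.replicate n (hcls hy hi)) hs
  have h3 := I_emap hy hn hi (φ (ng v)) hs
  have h4 : (mapDegree (φ (ng v)) : ℝ) = Real.exp (∑ i, Real.log (mapDegree
      (φ (Pi.single i 1)) : ℝ) * (ng v i : ℝ)) := by
    beta_reduce at h1 h2
    rw [h3] at h1
    push_cast at h1
    exact mul_right_cancel₀ h2.ne' h1
  rw [h4, Real.exp_neg, mul_comm, div_eq_mul_inv]

/-- **The rank theorem** for semigroups of commuting dominant rational self-maps which preserve the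
class of a nef divisor. -/
theorem semi_mainD (hy : NormalModel y) (hn : Algebra.trdeg ℂ K = n) (hn0 : 0 < n)
    {L : Place ℂ K → ℚ} (hL : {P | IsPrimeDivisor y P ∧ L P ≠ 0}.Finite) (hnef : NefD y n L)
    {r s : ℕ} (hs : 0 < s) {φ : (Fin r → ℕ) → (K →ₐ[ℂ] K)} (hφ : ∀ u v, φ (u + v) = φ u * φ v)
    (hP : ∀ v, SelfClassLe (φ v) y L) (hrank : CorrRankGe φ y n s) :
    s ≤ n ∧ NuLt y n L (n - s + 1) := by
  have hsn : s ≤ n := by
    obtain ⟨W, hW1, hW⟩ := semi_spaceD hy hn hn0 hL hnef hφ hP (Nat.zero_le n)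
      (not_nuLt_zero hy hn hn0 hnef)
    have := hrank W hW
    omega
  refine ⟨hsn, ?_⟩
  by_contra hnum
  obtain ⟨W, hW1, hW⟩ := semi_spaceD hy hn hn0 hL hnef hφ hP
    (by omega : n - s + 1 ≤ n) hnum
  have h2 := hrank W hW
  omega

/-- Nef divisors of numerical dimension zero which are effective up to linear equivalence of a
multiple are torsion. -/
theorem trivial_of_iitaka (hy : NormalModel y) (hn : Algebra.trdeg ℂ K = n) (hn0 : 0 < n)
    {L : Place ℂ K → ℚ} (hnef : NefD y n L) (hnum : NuLt y n L 1) (h0 : IitakaGe y L 0) :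
    ∃ m : ℕ, 1 ≤ m ∧ ∃ g : K, g ≠ 0 ∧ ∀ P, IsPrimeDivisor y P → (P.ord g : ℚ) = -(m * L P) := by
  obtain ⟨x, E, hx, hE⟩ := exists_crd hn (k := ℂ) (K := K)
  have hfr : IsFrame E := fun F => ⟨fun j => F (x j),
    (Pool.Agent.W73.PG.PULL.expand x hx E hE F).symm⟩
  obtain ⟨c, hcfin, hc⟩ := exists_ordc hy hn hx hE
  have hc' : IsDisc y E c := hc
  have hnef' := logNef_of hE hc' hnef
  have hnum' := (nuLt_iff (L := L) hE hfr hc').2 hnum
  obtain ⟨m, hm, g, hg, hg0, -⟩ := h0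
  have hself : (frm x m (g 0) : (Fin n → Derivation ℂ K K) → K) E = g 0 := frm_self hE _ _
  have hω : IsSection y n m (m • sh c L) (frm x m (g 0)) := by
    rw [isSection_iff hc' (frm_pluri x _ _), frm_self hE, lsp_iff']
    exact hg 0
  have hωE : (frm x m (g 0) : (Fin n → Derivation ℂ K K) → K) E ≠ 0 := by
    rw [hself]
    exact hg0
  have hω0 : (frm x m (g 0) : (Fin n → Derivation ℂ K K) → K) ≠ 0 := by
    intro h
    apply hωE
    rw [h]
    rfl
  refine ⟨m, hm, g 0, hg0, fun P hP => ?_⟩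
  have h1 := nef_trivialP hy hn hn0 hnum' hnef' hm hω hω0 P hP
  have h2 := (ordEq_iff hc' hP hω.1 hωE).1 h1
  rw [hself] at h2
  unfold sh at h2
  linarith

end

end Pool.Agent.U827.SM
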